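import Pool.Agent.Q263.IV.Def

/-!
# Job IVP-POLY: invariant polynomials with prescribed double zeros
-/

set_option autoImplicit false

open Set MeasureTheory Function Filter Topology
open scoped ContDiff NNReal

namespace Q144.IV

open Q263.IV

/-- the exponent vector -/
noncomputable def ex {d D : ℕ} (α : Fin d → Fin (D + 1)) : Fin d →₀ ℕ :=
  Finsupp.equivFunOnFinite.symm (fun i => (α i : ℕ))

theorem ex_apply {d D : ℕ} (α : Fin d → Fin (D + 1)) (i : Fin d) : ex α i = (α i : ℕ) := rfl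

theorem ex_inj {d D : ℕ} : Injective (ex : (Fin d → Fin (D + 1)) → (Fin d →₀ ℕ)) := by
  intro α β h
  funext i
  apply Fin.ext
  rw [← ex_apply, ← ex_apply, h]

/-- A polynomial of small degree in each variable is one of the functions `pol c`. -/
theorem pol_eval {d D : ℕ} (P : MvPolynomial (Fin d) ℝ) (hP : ∀ i, P.degreeOf i ≤ D)
    (x : EuclideanSpace ℝ (Fin d)) :
    pol (D := D) (fun α => P.coeff (ex α)) x = MvPolynomial.eval (fun i => x i) P := by
  classical
  rw [MvPolynomial.eval_eq']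
  unfold pol
  have h1 : ∑ α : Fin d → Fin (D + 1), P.coeff (ex α) * ∏ i, x i ^ (α i : ℕ) =
      ∑ m ∈ Finset.univ.image (ex : (Fin d → Fin (D + 1)) → (Fin d →₀ ℕ)),
        P.coeff m * ∏ i, x i ^ (m i) := by
    rw [Finset.sum_image (fun _ _ _ _ h => ex_inj h)]
    rfl
  rw [h1]
  symm
  apply Finset.sum_subset
  · intro m hm
    rw [Finset.mem_image]
    have h2 : ∀ i, m i < D + 1 := fun i =>
      Nat.lt_succ_of_le ((MvPolynomial.monomial_le_degreeOf i hm).trans (hP i))
    refine ⟨fun i => ⟨m i, h2 i⟩, Finset.mem_univ _, ?_⟩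
    ext i
    rfl
  · intro m _ hm
    rw [MvPolynomial.notMem_support_iff] at hm
    rw [hm, zero_mul]

/-- The polynomial `|x - b| ^ 2`. -/
noncomputable def sqd {d : ℕ} (b : EuclideanSpace ℝ (Fin d)) : MvPolynomial (Fin d) ℝ :=
  ∑ i, (MvPolynomial.X i - MvPolynomial.C (b i)) ^ 2

theorem eval_sqd {d : ℕ} (b x : EuclideanSpace ℝ (Fin d)) :
    MvPolynomial.eval (fun i => x i) (sqd b) = ‖x - b‖ ^ 2 := by
  rw [EuclideanSpace.norm_sq_eq]
  simp [sqd]

theorem deg_sqd {d : ℕ} (b : EuclideanSpace ℝ (Fin d)) (i : Fin d) :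
    (sqd b).degreeOf i ≤ 2 := by
  classical
  unfold sqd
  refine (MvPolynomial.degreeOf_sum_le i _ _).trans (Finset.sup_le fun j _ => ?_)
  refine (MvPolynomial.degreeOf_pow_le i _ 2).trans ?_
  have h1 : (MvPolynomial.X j - MvPolynomial.C (b j) : MvPolynomial (Fin d) ℝ).degreeOf i ≤ 1 := by
    refine (MvPolynomial.degreeOf_sub_le i _ _).trans (max_le ?_ ?_)
    · rw [MvPolynomial.degreeOf_X]
      split_ifs <;> simp
    · rw [MvPolynomial.degreeOf_C]
      exact Nat.zero_le _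
  omega

/-- Invariant polynomials with prescribed double zeros. -/
theorem poly : S_POLY := by
  classical
  intro d D N Γ _ hD A q hA hq
  have : Fintype Γ := Fintype.ofFinite Γ
  set B : Finset (EuclideanSpace ℝ (Fin d)) :=
    ((Finset.univ : Finset Γ) ×ˢ A).image (fun z => (z.1 : EuclideanSpace ℝ (Fin d) ≃ₗᵢ[ℝ] _) z.2)
    with hB
  have hBcard : B.card ≤ Nat.card Γ * (N - 1) := by
    refine Finset.card_image_le.trans ?_
    rw [Finset.card_product, Finset.card_univ, Nat.card_eq_fintype_card]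
    exact Nat.mul_le_mul_left _ hA
  have hBmem : ∀ b, b ∈ B ↔ ∃ γ ∈ Γ, ∃ a ∈ A, γ a = b := by
    intro b
    rw [hB, Finset.mem_image]
    constructor
    · rintro ⟨⟨γ, a⟩, h1, h2⟩
      exact ⟨γ, γ.2, a, (Finset.mem_product.1 h1).2, h2⟩
    · rintro ⟨γ, hγ, a, ha, h2⟩
      exact ⟨(⟨γ, hγ⟩, a), Finset.mem_product.2 ⟨Finset.mem_univ _, ha⟩, h2⟩
  have hBinv : ∀ γ ∈ Γ, ∀ b ∈ B, γ b ∈ B := by
    intro γ hγ b hb
    obtain ⟨δ, hδ, a, ha, rfl⟩ := (hBmem b).1 hb
    exact (hBmem _).2 ⟨γ * δ, Γ.mul_mem hγ hδ, a, ha, rfl⟩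
  set P : MvPolynomial (Fin d) ℝ := ∏ b ∈ B, sqd b with hP
  have hdeg : ∀ i, P.degreeOf i ≤ D := by
    intro i
    refine (MvPolynomial.degreeOf_prod_le i _ _).trans ?_
    refine (Finset.sum_le_sum fun b _ => deg_sqd b i).trans ?_
    rw [Finset.sum_const, smul_eq_mul]
    have h1 : 2 * (Nat.card Γ * (N - 1)) ≤ D := by
      rw [← mul_assoc]
      exact hD
    omega
  have hval : ∀ x, pol (D := D) (fun α => P.coeff (ex α)) x = ∏ b ∈ B, ‖x - b‖ ^ 2 := by
    intro x
    rw [pol_eval P hdeg x, hP, map_prod]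
    exact Finset.prod_congr rfl fun b _ => eval_sqd b x
  refine ⟨fun α => P.coeff (ex α), ?_, ?_, ?_⟩
  · intro γ hγ x
    rw [hval, hval]
    refine Finset.prod_bij' (fun b _ => γ⁻¹ b) (fun b _ => γ b) ?_ ?_ ?_ ?_ ?_
    · intro b hb
      exact hBinv _ (Γ.inv_mem hγ) b hb
    · intro b hb
      exact hBinv _ hγ b hb
    · intro b _
      show (γ * γ⁻¹) b = b
      rw [mul_inv_cancel]
      rfl
    · intro b _
      show (γ⁻¹ * γ) b = b
      rw [inv_mul_cancel]
      rfl
    · intro b _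
      have h1 : γ x - b = γ (x - γ⁻¹ b) := by
        rw [map_sub]
        congr 1
        show b = (γ * γ⁻¹) b
        rw [mul_inv_cancel]
        rfl
      rw [h1, LinearIsometryEquiv.norm_map]
  · rw [hval]
    refine Finset.prod_pos fun b hb => ?_
    have h1 : q - b ≠ 0 := by
      intro h0
      obtain ⟨γ, hγ, a, ha, h2⟩ := (hBmem b).1 hb
      apply hq γ⁻¹ (Γ.inv_mem hγ)
      have h3 : q = γ a := by
        rw [h2]
        exact sub_eq_zero.1 h0
      have h4 : γ⁻¹ q = a := by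
        rw [h3]
        show (γ⁻¹ * γ) a = a
        rw [inv_mul_cancel]
        rfl
      rw [h4]
      exact ha
    have h5 : 0 < ‖q - b‖ := norm_pos_iff.2 h1
    positivity
  · intro a ha
    have haB : a ∈ B := (hBmem a).2 ⟨1, Γ.one_mem, a, ha, rfl⟩
    have h0 : pol (D := D) (fun α => P.coeff (ex α)) a = 0 := by
      rw [hval]
      refine Finset.prod_eq_zero haB ?_
      rw [sub_self, norm_zero]
      norm_num
    refine ⟨h0, ?_⟩
    have hmin : IsLocalMin (pol (D := D) (fun α => P.coeff (ex α))) a := by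
      refine Eventually.of_forall fun x => ?_
      rw [h0, hval]
      exact Finset.prod_nonneg fun b _ => by positivity
    unfold gradient
    rw [hmin.fderiv_eq_zero, map_zero]

end Q144.IV
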