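import Pool.Agent.Q263.IV.Def

/-!
# Job IVP-PROJ: the projection of a regular level set is null
-/

set_option autoImplicit false

open Set MeasureTheory Function Filter Topology
open scoped ContDiff NNReal

namespace Q144.IV

open Q263.IV

/-- The projection of a regular level set of small dimension is null. -/
theorem proj : S_PROJ := by
  intro S W Y _ _ _ _ _ _ _ _ _ _ _ μ _ Θ Θ' z₀ hΘ hrange hdim
  set ψ := hΘ.implicitFunction Θ Θ' hrange (Θ z₀) with hψ
  have h1 : HasStrictFDerivAt ψ (Θ'.ker).subtypeL 0 := hΘ.to_implicitFunction hrange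
  obtain ⟨K, U, hU, hK⟩ := h1.exists_lipschitzOnWith
  set φ := fun z => (hΘ.implicitToOpenPartialHomeomorph Θ Θ' hrange z).snd with hφ
  have hφ0 : φ z₀ = 0 := by
    simp [hφ]
  have hφc : ContinuousAt φ z₀ := by
    have h2 : ContinuousAt (hΘ.implicitToOpenPartialHomeomorph Θ Θ' hrange) z₀ :=
      (hΘ.implicitToOpenPartialHomeomorph Θ Θ' hrange).continuousAt
        (hΘ.mem_implicitToOpenPartialHomeomorph_source hrange)
    exact h2.snd
  have h3 : ∀ᶠ z in 𝓝 z₀, φ z ∈ U := by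
    have : Tendsto φ (𝓝 z₀) (𝓝 (φ z₀)) := hφc
    rw [hφ0] at this
    exact this hU
  have h4 := hΘ.eq_implicitFunction hrange
  refine ⟨{z | φ z ∈ U ∧ hΘ.implicitFunction Θ Θ' hrange (Θ z) (φ z) = z}, h3.and h4, ?_⟩
  have hsub : Prod.fst '' {z ∈ {z | φ z ∈ U ∧ hΘ.implicitFunction Θ Θ' hrange (Θ z) (φ z) = z} |
      Θ z = Θ z₀} ⊆ (fun k => (ψ k).1) '' U := by
    rintro _ ⟨z, ⟨⟨hz1, hz2⟩, hz3⟩, rfl⟩
    refine ⟨φ z, hz1, ?_⟩
    simp only
    rw [hψ, ← hz3, hz2]
  refine measure_mono_null hsub ?_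
  have hlip := LipschitzWith.prod_fst.comp_lipschitzOnWith hK
  have hrk : Module.finrank ℝ (Θ'.ker) + Module.finrank ℝ Y = Module.finrank ℝ S +
      Module.finrank ℝ W := by
    have h5 := LinearMap.finrank_range_add_finrank_ker (Θ' : S × W →ₗ[ℝ] Y)
    have h6 : LinearMap.range (Θ' : S × W →ₗ[ℝ] Y) = ⊤ := hrange
    rw [h6, finrank_top, Module.finrank_prod] at h5
    have h7 : Module.finrank ℝ (LinearMap.ker (Θ' : S × W →ₗ[ℝ] Y)) =
        Module.finrank ℝ (Θ'.ker) := rfl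
    omega
  have hlt : Module.finrank ℝ (Θ'.ker) < Module.finrank ℝ S := by omega
  have hd : dimH ((fun k => (ψ k).1) '' U) < Module.finrank ℝ S := by
    calc dimH ((fun k => (ψ k).1) '' U) ≤ dimH U := hlip.dimH_image_le
      _ ≤ dimH (univ : Set Θ'.ker) := dimH_mono (subset_univ _)
      _ = Module.finrank ℝ (Θ'.ker) := Real.dimH_univ_eq_finrank _
      _ < Module.finrank ℝ S := by exact_mod_cast hlt
  have hac : μ ≪ μH[(Module.finrank ℝ S : ℝ)] :=
    Measure.absolutelyContinuous_isAddHaarMeasure _ _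
  have hac2 : μ ≪ μH[((Module.finrank ℝ S : ℝ≥0) : ℝ)] := by
    rw [NNReal.coe_natCast]
    exact hac
  exact measure_zero_of_dimH_lt hac2 (by exact_mod_cast hd)

end Q144.IV
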