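import Pool.Agent.Q263.IV.Def

/-!
# Job IVP-RESAMP: Fubini on the Hilbert cube with finitely many coordinates
-/

set_option autoImplicit false

open Set MeasureTheory Function Filter Topology
open scoped unitInterval ContDiff

namespace Q144.IV

open Q263.IV

theorem measurable_repl (J : ℕ) :
    Measurable (fun p : (ℕ → I) × (Fin J → I) => repl J p.1 p.2) := by
  refine measurable_pi_lambda _ fun j => ?_
  unfold repl
  by_cases h : j < J
  · simp only [h, dif_pos]
    exact (measurable_pi_apply _).comp measurable_snd
  · simp only [h, dif_neg, not_false_iff]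
    exact (measurable_pi_apply _).comp measurable_fst

/-- resampling the first `J` coordinates preserves the product measure -/
theorem map_repl (J : ℕ) :
    ((Measure.infinitePi (fun _ : ℕ => (volume : Measure I))).prod
      (volume : Measure (Fin J → I))).map (fun p : (ℕ → I) × (Fin J → I) => repl J p.1 p.2) =
    Measure.infinitePi (fun _ : ℕ => (volume : Measure I)) := by
  classical
  apply Measure.eq_infinitePi
  intro s t ht
  have hm := measurable_repl J
  rw [Measure.map_apply hm (MeasurableSet.pi s.countable_toSet (fun i hi => ht i))]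
  have e : (fun p : (ℕ → I) × (Fin J → I) => repl J p.1 p.2) ⁻¹' (Set.pi (s : Set ℕ) t) =
      (Set.pi ((s.filter (fun j => ¬ j < J) : Finset ℕ) : Set ℕ) t) ×ˢ
        (Set.pi univ (fun i : Fin J => if (i : ℕ) ∈ s then t i else univ)) := by
    ext ⟨x, r⟩
    simp only [mem_preimage, Set.mem_pi, mem_prod, Finset.coe_filter, Set.mem_ofPred_eq,
      Finset.mem_coe, mem_univ, true_implies]
    constructor
    · intro h
      refine ⟨fun i hi => ?_, fun i => ?_⟩
      · have := h i hi.1
        unfold repl at this
        rwa [dif_neg hi.2] at this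
      · split_ifs with hj
        · have := h i hj
          unfold repl at this
          rwa [dif_pos i.2] at this
        · trivial
    · rintro ⟨h1, h2⟩ i hi
      unfold repl
      by_cases hij : i < J
      · rw [dif_pos hij]
        have := h2 ⟨i, hij⟩
        simp only at this
        rwa [if_pos hi] at this
      · rw [dif_neg hij]
        exact h1 i ⟨hi, hij⟩
  rw [e, Measure.prod_prod, Measure.infinitePi_pi _ (fun i hi => ht i)]
  rw [volume_pi, Measure.pi_pi]
  have h1 : ∏ i : Fin J, (volume : Measure I) (if (i : ℕ) ∈ s then t i else univ) =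
      ∏ i ∈ s.filter (fun j => j < J), (volume : Measure I) (t i) := by
    have h2 : ∀ i : Fin J, (volume : Measure I) (if (i : ℕ) ∈ s then t i else univ) =
        (fun j : ℕ => if j ∈ s then (volume : Measure I) (t j) else 1) (i : ℕ) := by
      intro i
      simp only
      split_ifs
      · rfl
      · exact measure_univ
    rw [Finset.prod_congr rfl fun i _ => h2 i,
      Fin.prod_univ_eq_prod_range (fun j : ℕ => if j ∈ s then (volume : Measure I) (t j) else 1) J,
      Finset.prod_ite, Finset.prod_const_one, mul_one]
    apply Finset.prod_congr _ (fun _ _ => rfl)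
    ext j
    simp only [Finset.mem_filter, Finset.mem_range]
    exact and_comm
  rw [h1, mul_comm, Finset.prod_filter_mul_prod_filter_not]

/-- The volume of a set of the cube in terms of its image in the space. -/
theorem null_cube (J : ℕ) (A : Set (Fin J → I))
    (h : volume {x : Fin J → ℝ | ∃ s : Fin J → I, (∀ i, (s i : ℝ) = x i) ∧ s ∈ A} = 0) :
    volume A = 0 := by
  have h1 : MeasurePreserving ((↑) : I → ℝ) (volume : Measure I)
      ((volume : Measure ℝ).restrict I) :=
    ⟨measurable_subtype_coe, map_comap_subtype_coe measurableSet_Icc volume⟩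
  have hmp : MeasurePreserving (fun s : Fin J → I => fun i => (s i : ℝ))
      (Measure.pi fun _ : Fin J => (volume : Measure I))
      (Measure.pi fun _ : Fin J => (volume : Measure ℝ).restrict I) :=
    measurePreserving_pi _ _ (fun _ => h1)
  set e : (Fin J → I) → (Fin J → ℝ) := fun s => fun i => (s i : ℝ) with he
  have h2 : A ⊆ e ⁻¹' (e '' A) := subset_preimage_image e A
  have h3 : e '' A ⊆ {x : Fin J → ℝ | ∃ s : Fin J → I, (∀ i, (s i : ℝ) = x i) ∧ s ∈ A} := by
    rintro x ⟨s, hs, rfl⟩
    exact ⟨s, fun _ => rfl, hs⟩
  have h4 : (volume : Measure (Fin J → ℝ)) (e '' A) = 0 := measure_mono_null h3 h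
  have h5 : (Measure.pi fun _ : Fin J => (volume : Measure ℝ).restrict I) (e '' A) = 0 := by
    rw [← Measure.restrict_pi_pi]
    exact le_antisymm ((Measure.restrict_apply_le _ _).trans h4.le) bot_le
  refine measure_mono_null h2 ?_
  refine le_antisymm ?_ bot_le
  have h6 : (Measure.pi fun _ : Fin J => (volume : Measure I)) (e ⁻¹' (e '' A)) ≤
      ((Measure.pi fun _ : Fin J => (volume : Measure I)).map e) (e '' A) :=
    Measure.le_map_apply (hmp.measurable.aemeasurable) (e '' A)
  rw [hmp.map_eq, h5] at h6
  exact h6

/-- Fubini on the Hilbert cube with finitely many coordinates. -/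
theorem resamp : S_RESAMP := by
  intro J K hK h
  rw [← map_repl J, Measure.map_apply (measurable_repl J) hK,
    Measure.measure_prod_null ((measurable_repl J) hK)]
  refine Filter.Eventually.of_forall fun t => ?_
  exact null_cube J _ (h t)

end Q144.IV
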